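import Pool.Agent.Helper38.RS.Defs
import Pool.Agent.Helper93.SL2.PadicLog

/-!
# Project RS: the embeddings of a number field in a field containing an algebraic closure of `ℚ`
-/

namespace Pool.Agent.Helper94.RS

open NumberField Module

section emb

variable {k : Type*} [Field k] [CharZero k] {H : Type*} [Field H] [NumberField H]

/-- The map `c ↦ (∑_τ c_τ τ(b_i))_i`. -/
noncomputable def phiMap {ι : Type*} [Fintype ι] (b : Basis ι ℚ H) :
    ((H →+* k) → k) →ₗ[k] (ι → k) where
  toFun c i := ∑ τ : H →+* k, c τ * τ (b i)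
  map_add' c d := by
    funext i
    simp [add_mul, Finset.sum_add_distrib]
  map_smul' a c := by
    funext i
    simp [Finset.mul_sum, mul_assoc]

theorem map_eq_sum {ι : Type*} [Fintype ι] (b : Basis ι ℚ H) (τ : H →+* k) (x : H) :
    τ x = ∑ i, (b.repr x i : k) * τ (b i) := by
  conv_lhs => rw [← b.sum_repr x]
  rw [map_sum]
  refine Finset.sum_congr rfl fun i _ ↦ ?_
  rw [Algebra.smul_def, map_mul]
  congr 1
  exact map_ratCast τ _

theorem phiMap_injective {ι : Type*} [Fintype ι] (b : Basis ι ℚ H) :
    Function.Injective (phiMap (k := k) b) := by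
  rw [← LinearMap.ker_eq_bot, LinearMap.ker_eq_bot']
  intro c hc
  have hli : LinearIndependent k (fun τ : H →+* k ↦ (fun x : H ↦ τ x)) := by
    have h1 := linearIndependent_monoidHom H k
    have h2 := h1.comp (fun τ : H →+* k ↦ (τ : H →* k)) (by
      intro σ τ h
      ext x
      exact DFunLike.congr_fun h x)
    exact h2
  rw [Fintype.linearIndependent_iff] at hli
  funext τ
  refine hli c ?_ τ
  funext x
  have h3 : ∀ i, ∑ τ : H →+* k, c τ * τ (b i) = 0 := fun i ↦ congrFun hc i
  rw [Finset.sum_apply]
  simp only [Pi.smul_apply, smul_eq_mul, Pi.zero_apply]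
  calc ∑ τ : H →+* k, c τ * τ x = ∑ τ : H →+* k, ∑ i, (b.repr x i : k) * (c τ * τ (b i)) := by
        refine Finset.sum_congr rfl fun τ _ ↦ ?_
        rw [map_eq_sum b τ x, Finset.mul_sum]
        refine Finset.sum_congr rfl fun i _ ↦ ?_
        ring
    _ = ∑ i, (b.repr x i : k) * ∑ τ : H →+* k, (c τ * τ (b i)) := by
        rw [Finset.sum_comm]
        refine Finset.sum_congr rfl fun i _ ↦ ?_
        rw [Finset.mul_sum]
    _ = 0 := by
        refine Finset.sum_eq_zero fun i _ ↦ ?_
        rw [h3, mul_zero]

/-- A number field of degree `n` has `n` embeddings in `k`. -/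
theorem card_emb (hj : Nonempty (AlgebraicClosure ℚ →+* k)) :
    Fintype.card (H →+* k) = finrank ℚ H := by
  obtain ⟨j⟩ := hj
  apply le_antisymm
  · have h := LinearMap.finrank_le_finrank_of_injective
      (phiMap_injective (k := k) (Module.finBasis ℚ H))
    rw [finrank_fintype_fun_eq_card, finrank_fintype_fun_eq_card, Fintype.card_fin] at h
    exact h
  · rw [← NumberField.Embeddings.card H (AlgebraicClosure ℚ)]
    refine Fintype.card_le_of_injective (fun σ ↦ j.comp σ) ?_
    intro σ τ h
    ext x
    exact j.injective (DFunLike.congr_fun h x)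

/-- Every embedding of a number field in `k` factors through the algebraic closure of `ℚ`. -/
theorem exists_factor (j : AlgebraicClosure ℚ →+* k) (τ : H →+* k) :
    ∃ σ : H →+* AlgebraicClosure ℚ, τ = j.comp σ := by
  have hinj : Function.Injective (fun σ : H →+* AlgebraicClosure ℚ ↦ j.comp σ) := by
    intro σ τ h
    ext x
    exact j.injective (DFunLike.congr_fun h x)
  have hcard : Fintype.card (H →+* AlgebraicClosure ℚ) = Fintype.card (H →+* k) := by
    rw [card_emb ⟨j⟩, NumberField.Embeddings.card H (AlgebraicClosure ℚ)]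
  have hb := (Fintype.bijective_iff_injective_and_card _).2 ⟨hinj, hcard⟩
  obtain ⟨σ, hσ⟩ := hb.2 τ
  exact ⟨σ, hσ.symm⟩

/-- The vectors `(τ(b_i))_τ` are linearly independent over `k`. -/
theorem cols_indep (hj : Nonempty (AlgebraicClosure ℚ →+* k)) {ι : Type*} [Fintype ι]
    [DecidableEq ι] (b : Basis ι ℚ H) :
    LinearIndependent k (fun i ↦ (fun τ : H →+* k ↦ τ (b i))) := by
  have hsurj : Function.Surjective (phiMap (k := k) b) := by
    rw [← LinearMap.injective_iff_surjective_of_finrank_eq_finrank]
    · exact phiMap_injective b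
    · rw [finrank_fintype_fun_eq_card, finrank_fintype_fun_eq_card, card_emb hj,
        Module.finrank_eq_card_basis b]
  rw [Fintype.linearIndependent_iff]
  intro g hg i
  obtain ⟨c, hc⟩ := hsurj (Pi.single i 1)
  have h1 : ∀ τ : H →+* k, ∑ l, g l * τ (b l) = 0 := by
    intro τ
    have := congrFun hg τ
    simpa using this
  have h2 : ∑ l, g l * (Pi.single i (1 : k) : ι → k) l = 0 := by
    rw [← hc]
    simp only [phiMap, LinearMap.coe_mk, AddHom.coe_mk]
    calc ∑ l, g l * ∑ τ : H →+* k, c τ * τ (b l)
        = ∑ l, ∑ τ : H →+* k, c τ * (g l * τ (b l)) := by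
          refine Finset.sum_congr rfl fun l _ ↦ ?_
          rw [Finset.mul_sum]
          refine Finset.sum_congr rfl fun τ _ ↦ ?_
          ring
      _ = ∑ τ : H →+* k, c τ * ∑ l, g l * τ (b l) := by
          rw [Finset.sum_comm]
          refine Finset.sum_congr rfl fun τ _ ↦ ?_
          rw [Finset.mul_sum]
      _ = 0 := by
          refine Finset.sum_eq_zero fun τ _ ↦ ?_
          rw [h1, mul_zero]
  simpa [Pi.single_apply] using h2

end emb

end Pool.Agent.Helper94.RS
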