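import Pool.Agent.Helper38.RS.Goals1
import Pool.Agent.Helper94.RS.Emb

/-!
# Packet RS-RAT: rationality of the logarithms
-/

namespace Pool.Agent.Helper94.RS

open NumberField Module TensorProduct Pool.Agent.Helper51.SigLeo Pool.Agent.Helper93.SL2
  Pool.Agent.Helper38.RS

section approx

variable (p : ℕ) [hp : Fact p.Prime] {k : Type} [NormedField k] [NormedAlgebra ℚ_[p] k]
  {H : Type} [Field H]

include p in
theorem norm_map_p (τ : H →+* k) : ‖τ (p : H)‖ = (p : ℝ)⁻¹ := by
  rw [map_natCast, norm_natCast_eq p, Padic.norm_p]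

include hp in
theorem inv_p_ne_one : (p : ℝ)⁻¹ ≠ 1 := by
  intro h
  rw [inv_eq_one] at h
  exact hp.out.one_lt.ne' (by exact_mod_cast h)

variable [NumberField H]

include p in
theorem place_nontrivial (τ : H →+* k) : (NumberField.place τ).IsNontrivial := by
  refine ⟨(p : H), by exact_mod_cast hp.out.ne_zero, ?_⟩
  rw [NumberField.place_apply, norm_map_p p]
  exact inv_p_ne_one p

omit [NumberField H] in
include p in
theorem place_eq_of_isEquiv (σ τ : H →+* k)
    (h : (NumberField.place σ).IsEquiv (NumberField.place τ)) :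
    NumberField.place σ = NumberField.place τ := by
  rw [AbsoluteValue.isEquiv_iff_exists_rpow_eq] at h
  obtain ⟨c, hc, hceq⟩ := h
  have h1 := congrFun hceq (p : H)
  simp only [NumberField.place_apply] at h1
  rw [norm_map_p p, norm_map_p p] at h1
  have hp0 : (0 : ℝ) < (p : ℝ)⁻¹ := by
    have := hp.out.pos
    positivity
  have h2 : c = 1 := by
    have h3 := congrArg Real.log h1
    rw [Real.log_rpow hp0] at h3
    have h4 : Real.log (p : ℝ)⁻¹ ≠ 0 := by
      refine Real.log_ne_zero_of_pos_of_ne_one hp0 (inv_p_ne_one p)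
    exact mul_right_cancel₀ h4 (by rw [h3, one_mul])
  ext x
  have h5 := congrFun hceq x
  simp only [h2, Real.rpow_one] at h5
  exact h5

include p in
/-- Weak approximation of the characteristic function of a place closed set of embeddings. -/
theorem approx_T (T : Set (H →+* k)) (hT : PlaceClosed T) (ε : ℝ) (hε : 0 < ε) :
    ∃ x : H, (∀ τ ∈ T, ‖τ x - 1‖ < ε) ∧ ∀ τ ∉ T, ‖τ x‖ < ε := by
  classical
  have hchar : CharZero k := charZero_of_padic p
  let J := Set.range (fun τ : H →+* k ↦ NumberField.place τ)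
  have hfin : Finite J := (Set.finite_range _).to_subtype
  let v : J → AbsoluteValue H ℝ := fun i ↦ i.1
  have h1 : ∀ i, (v i).IsNontrivial := by
    rintro ⟨_, τ, rfl⟩
    exact place_nontrivial p τ
  have h2 : Pairwise fun i j ↦ ¬(v i).IsEquiv (v j) := by
    rintro ⟨_, σ, rfl⟩ ⟨_, τ, rfl⟩ hne h
    exact hne (Subtype.ext (place_eq_of_isEquiv p σ τ h))
  have hd := AbsoluteValue.denseRange_algebraMap_pi h1 h2
  rw [Metric.denseRange_iff] at hd
  obtain ⟨x, hx⟩ := hd (fun i ↦ if ∃ τ ∈ T, NumberField.place τ = i.1 then 1 else 0) ε hε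
  rw [dist_pi_lt_iff hε] at hx
  refine ⟨x, ?_, ?_⟩
  · intro τ hτ
    have h3 := hx ⟨NumberField.place τ, τ, rfl⟩
    rw [if_pos ⟨τ, hτ, rfl⟩, dist_comm, dist_eq_norm] at h3
    have h4 : ‖τ x - 1‖ = ‖τ (x - 1)‖ := by rw [map_sub, map_one]
    rw [h4]
    exact h3
  · intro τ hτ
    have h3 := hx ⟨NumberField.place τ, τ, rfl⟩
    rw [if_neg, dist_comm, dist_eq_norm, sub_zero] at h3
    · exact h3
    · rintro ⟨σ, hσ, h⟩
      refine hτ ((hT σ τ fun y ↦ ?_).1 hσ)
      have := DFunLike.congr_fun h y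
      exact this

/-- The diagonal embedding of `H` in `k^n`. -/
noncomputable def diagHom (H k : Type) [NormedField k] [Field H] : H →+* ((H →+* k) → k) :=
  RingHom.pi (fun τ ↦ τ)

omit [NumberField H] in
theorem diagHom_apply (x : H) (τ : H →+* k) : diagHom H k x τ = τ x := rfl

include p in
theorem char_mem [Fintype (H →+* k)] (T : Set (H →+* k)) (hT : PlaceClosed T)
    [DecidablePred (· ∈ T)] :
    (fun τ ↦ if τ ∈ T then 1 else 0) ∈ (diagHom H k).range.topologicalClosure := by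
  change _ ∈ closure (((diagHom H k).range : Subring ((H →+* k) → k)) : Set ((H →+* k) → k))
  rw [Metric.mem_closure_iff]
  intro ε hε
  obtain ⟨x, h1, h2⟩ := approx_T p T hT ε hε
  refine ⟨diagHom H k x, ⟨x, rfl⟩, ?_⟩
  rw [dist_pi_lt_iff hε]
  intro τ
  rw [dist_comm, dist_eq_norm, diagHom_apply]
  by_cases h : τ ∈ T
  · rw [if_pos h]
    exact h1 τ h
  · rw [if_neg h, sub_zero]
    exact h2 τ h

variable [IsUltrametricDist k]

include p in
/-- Some power of a unit is close to `1` for all embeddings. -/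
theorem exists_pow_close_all (u : (𝓞 H)ˣ) :
    ∃ n : ℕ, 0 < n ∧ ∀ ψ : H →+* k, ‖(ψ ((u : 𝓞 H) : H)) ^ n - 1‖ ≤ 1 / 4 := by
  have hI : Ideal.span {((p : 𝓞 H)) ^ 2} ≠ ⊥ := by
    rw [Ne, Ideal.span_singleton_eq_bot]
    exact pow_ne_zero _ (by exact_mod_cast hp.out.ne_zero)
  have hfin : Finite (𝓞 H ⧸ Ideal.span {((p : 𝓞 H)) ^ 2}) :=
    Ideal.finiteQuotientOfFreeOfNeBot _ hI
  let f : (𝓞 H)ˣ →* (𝓞 H ⧸ Ideal.span {((p : 𝓞 H)) ^ 2})ˣ :=
    Units.map (Ideal.Quotient.mk (Ideal.span {((p : 𝓞 H)) ^ 2}) : 𝓞 H →* _)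
  obtain ⟨n, hn, hn1⟩ := isOfFinOrder_iff_pow_eq_one.1 (isOfFinOrder_of_finite (f u))
  refine ⟨n, hn, fun ψ ↦ ?_⟩
  have h1 : Ideal.Quotient.mk (Ideal.span {((p : 𝓞 H)) ^ 2}) ((u : 𝓞 H) ^ n) =
      Ideal.Quotient.mk (Ideal.span {((p : 𝓞 H)) ^ 2}) 1 := by
    have := congrArg Units.val hn1
    simpa [f] using this
  rw [Ideal.Quotient.eq, Ideal.mem_span_singleton'] at h1
  obtain ⟨ρ, hρ⟩ := h1
  have h2 : (ψ ((u : 𝓞 H) : H)) ^ n - 1 = ψ (ρ : H) * (p : k) ^ 2 := by
    have := congrArg (fun x : 𝓞 H => ψ (algebraMap (𝓞 H) H x)) hρ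
    simp only [map_mul, map_pow, map_sub, map_one, map_natCast] at this
    exact this.symm
  rw [h2, norm_mul]
  have h3 := norm_embedding_le_one p ψ ρ
  have h4 := norm_p_pow_le p (k := k) 2
  calc ‖ψ (ρ : H)‖ * ‖(p : k) ^ 2‖ ≤ 1 * (1 / 2) ^ 2 :=
        mul_le_mul h3 h4 (norm_nonneg _) zero_le_one
    _ = 1 / 4 := by norm_num

include p in
/-- The vector of the logarithms of a power of a unit is in the closure of `H`. -/
theorem log_mem (L : IwasawaLog p k) (u : (𝓞 H)ˣ) :
    ∃ n : ℕ, 0 < n ∧ (fun τ : H →+* k ↦ logUnits L τ (n • Additive.ofMul u)) ∈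
      (diagHom H k).range.topologicalClosure := by
  obtain ⟨n, hn, hclose⟩ := exists_pow_close_all p (k := k) u
  refine ⟨n, hn, ?_⟩
  have hchar : CharZero k := charZero_of_padic p
  have hval : ∀ τ : H →+* k, logUnits L τ (n • Additive.ofMul u) =
      L.toFun (Units.map (τ.comp (algebraMap (𝓞 H) H)) (u ^ n)) := fun τ ↦ rfl
  set x : H := (((u ^ n : (𝓞 H)ˣ) : 𝓞 H) : H) with hx
  have hsum : HasSum (fun m : ℕ ↦ diagHom H k ((-1) ^ m * (x - 1) ^ (m + 1) / (m + 1)))
      (fun τ : H →+* k ↦ logUnits L τ (n • Additive.ofMul u)) := by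
    rw [Pi.hasSum]
    intro τ
    have h1 : ‖((Units.map (τ.comp (algebraMap (𝓞 H) H) : 𝓞 H →* k) (u ^ n) : kˣ) : k) - 1‖ < 1 := by
      have h2 := hclose τ
      have h3 : ((Units.map (τ.comp (algebraMap (𝓞 H) H) : 𝓞 H →* k) (u ^ n) : kˣ) : k) =
          (τ ((u : 𝓞 H) : H)) ^ n := by
        simp
      rw [h3]
      linarith
    have h4 := L.hasSum _ h1
    rw [hval]
    have h5 : (fun m : ℕ ↦ diagHom H k ((-1) ^ m * (x - 1) ^ (m + 1) / (m + 1)) τ) =
        fun m : ℕ ↦ (-1) ^ m *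
          (((Units.map (τ.comp (algebraMap (𝓞 H) H) : 𝓞 H →* k) (u ^ n) : kˣ) : k) - 1) ^ (m + 1) /
          (m + 1) := by
      funext m
      rw [diagHom_apply, map_div₀, map_mul, map_pow, map_pow, map_sub, map_add, map_neg, map_one,
        map_natCast]
      rfl
    rw [h5]
    exact h4
  have hcl : IsClosed ((diagHom H k).range.topologicalClosure : Set ((H →+* k) → k)) :=
    Subring.isClosed_topologicalClosure _
  refine hcl.mem_of_tendsto hsum.tendsto_sum_nat (Filter.Eventually.of_forall fun m ↦ ?_)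
  refine sum_mem fun i _ ↦ ?_
  exact Subring.le_topologicalClosure _ ⟨_, rfl⟩

end approx

section main

variable (p : ℕ) [hp : Fact p.Prime] {k : Type} [NormedField k] [NormedAlgebra ℚ_[p] k]
  [IsUltrametricDist k]

omit [IsUltrametricDist k] [NormedAlgebra ℚ_[p] k] hp in
theorem extHom_tmul {A : Type} [AddCommGroup A] (f : A →+ k) (c : k) (u : A) :
    extHom f (c ⊗ₜ[ℤ] u) = c * f u := by
  rw [extHom, LinearMap.liftBaseChange_tmul, smul_eq_mul]
  rfl

/-- **S_RAT** for all primes `p`. -/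
theorem s_rat_gen (hj : Nonempty (AlgebraicClosure ℚ →+* k)) (L : IwasawaLog p k)
    (H : Type) [Field H] [NumberField H] (T : Set (H →+* k)) (hT : PlaceClosed T) :
    ∃ (n : ℕ) (f : Fin n → (Additive (𝓞 H)ˣ →+ ℚ_[p])),
      (∀ z : k ⊗[ℤ] Additive (𝓞 H)ˣ, (∀ τ ∈ T, extHom (logUnits L τ) z = 0) →
        ∀ i, extHom (((algebraMap ℚ_[p] k : ℚ_[p] →+* k) : ℚ_[p] →+ k).comp (f i)) z = 0) ∧
      ∀ τ ∈ T, ∃ c : Fin n → k, ∀ u, logUnits L τ u = ∑ i, f i u • c i := by
  classical
  have hchar : CharZero k := charZero_of_padic p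
  let b := Module.finBasis ℚ H
  have hcols := cols_indep (k := k) hj b
  let w : Fin (finrank ℚ H) → ((H →+* k) → k) := fun i τ ↦ τ (b i)
  have hli : LinearIndependent ℚ_[p] w := by
    refine LinearIndependent.restrict_scalars (R := ℚ_[p]) (K := k) ?_ hcols
    intro r s hrs
    have h : algebraMap ℚ_[p] k r = algebraMap ℚ_[p] k s := by
      rw [Algebra.algebraMap_eq_smul_one, Algebra.algebraMap_eq_smul_one]
      exact hrs
    exact (algebraMap ℚ_[p] k).injective h
  let W : Submodule ℚ_[p] ((H →+* k) → k) := Submodule.span ℚ_[p] (Set.range w)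
  let bW : Basis (Fin (finrank ℚ H)) ℚ_[p] W := Basis.span hli
  have hbW : ∀ i, ((bW i : W) : (H →+* k) → k) = w i := fun i ↦ congrArg Subtype.val (Basis.span_apply hli i)
  have hfd : FiniteDimensional ℚ_[p] W := Module.Finite.of_basis bW
  have hdiag : ∀ x, diagHom H k x ∈ W := by
    intro x
    have h1 : diagHom H k x = ∑ i, ((b.repr x i : ℚ) : ℚ_[p]) • w i := by
      funext τ
      rw [diagHom_apply, map_eq_sum b τ x, Finset.sum_apply]
      refine Finset.sum_congr rfl fun i _ ↦ ?_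
      rw [Pi.smul_apply, Algebra.smul_def, map_ratCast]
    rw [h1]
    exact Submodule.sum_mem _ fun i _ ↦ W.smul_mem _ (Submodule.subset_span ⟨i, rfl⟩)
  have hWc : IsClosed (W : Set ((H →+* k) → k)) := Submodule.closed_of_finiteDimensional W
  have hR : ((diagHom H k).range.topologicalClosure : Set ((H →+* k) → k)) ⊆ W := by
    refine closure_minimal ?_ hWc
    rintro _ ⟨x, rfl⟩
    exact hdiag x
  let e : (H →+* k) → k := fun τ ↦ if τ ∈ T then 1 else 0
  have he : e ∈ (diagHom H k).range.topologicalClosure := char_mem p T hT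
  let lam : Additive (𝓞 H)ˣ →+ ((H →+* k) → k) :=
    AddMonoidHom.mk' (fun u τ ↦ e τ * logUnits L τ u) (by
      intro u v
      funext τ
      simp [mul_add])
  have hlam : ∀ u, lam u ∈ W := by
    intro u
    obtain ⟨m, hm, hmem⟩ := log_mem p (k := k) L u.toMul
    have h1 : e * (fun τ ↦ logUnits L τ (m • Additive.ofMul u.toMul)) ∈ W :=
      hR (mul_mem he hmem)
    have h2 : lam u =
        (m : ℚ_[p])⁻¹ • (e * fun τ ↦ logUnits L τ (m • Additive.ofMul u.toMul)) := by
      funext τ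
      have hm0 : (m : k) ≠ 0 := by exact_mod_cast hm.ne'
      have h3 : logUnits L τ (m • Additive.ofMul u.toMul) = (m : k) * logUnits L τ u := by
        rw [map_nsmul, nsmul_eq_mul]
        rfl
      rw [Pi.smul_apply, Pi.mul_apply, h3, Algebra.smul_def, map_inv₀, map_natCast]
      change e τ * logUnits L τ u = _
      field_simp
    rw [h2]
    exact W.smul_mem _ h1
  let lamW : Additive (𝓞 H)ˣ →+ W := AddMonoidHom.codRestrict lam W hlam
  let f : Fin (finrank ℚ H) → (Additive (𝓞 H)ˣ →+ ℚ_[p]) := fun i ↦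
    ((bW.coord i : W →ₗ[ℚ_[p]] ℚ_[p]) : W →+ ℚ_[p]).comp lamW
  have hf : ∀ u (τ : H →+* k), e τ * logUnits L τ u = ∑ i, f i u • τ (b i) := by
    intro u τ
    have h1 := bW.sum_repr (lamW u)
    have h2 := congrArg (fun y : W ↦ (y : (H →+* k) → k) τ) h1
    simp only [Submodule.coe_sum, Submodule.coe_smul, hbW, Finset.sum_apply, Pi.smul_apply] at h2
    exact h2.symm
  refine ⟨finrank ℚ H, f, ?_, ?_⟩
  · intro z hz i
    have key : ∀ (y : k ⊗[ℤ] Additive (𝓞 H)ˣ) (τ : H →+* k),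
        ∑ i, extHom (((algebraMap ℚ_[p] k : ℚ_[p] →+* k) : ℚ_[p] →+ k).comp (f i)) y * τ (b i) =
          e τ * extHom (logUnits L τ) y := by
      intro y τ
      induction y with
      | zero => simp
      | tmul c u =>
        rw [extHom_tmul, mul_left_comm, hf, Finset.mul_sum]
        refine Finset.sum_congr rfl fun i _ ↦ ?_
        rw [extHom_tmul, Algebra.smul_def, mul_assoc]
        rfl
      | add y₁ y₂ h₁ h₂ =>
        rw [map_add, mul_add, ← h₁, ← h₂, ← Finset.sum_add_distrib]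
        refine Finset.sum_congr rfl fun i _ ↦ ?_
        rw [map_add, add_mul]
    rw [Fintype.linearIndependent_iff] at hcols
    refine hcols (fun i ↦
      extHom (((algebraMap ℚ_[p] k : ℚ_[p] →+* k) : ℚ_[p] →+ k).comp (f i)) z) ?_ i
    funext τ
    rw [Finset.sum_apply]
    have h1 := key z τ
    have h2 : e τ * extHom (logUnits L τ) z = 0 := by
      by_cases h : τ ∈ T
      · rw [hz τ h, mul_zero]
      · have h3 : e τ = 0 := if_neg h
        rw [h3, zero_mul]
    rw [h2] at h1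
    exact h1
  · intro τ hτ
    refine ⟨fun i ↦ τ (b i), fun u ↦ ?_⟩
    rw [← hf u τ]
    have h3 : e τ = 1 := if_pos hτ
    rw [h3, one_mul]

end main

theorem s_rat : Pool.Agent.Helper38.RS.S_RAT := by
  intro k _ _ _ _ hj L H _ _ T hT
  exact s_rat_gen 2 hj L H T hT

end Pool.Agent.Helper94.RS
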